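import Pool.Agent.MP_2b113a_an.H48.MB

/-!
The projections attached to the elements of a unipotent radical commute.
-/

namespace Pool.Agent.MP_2b113a_an.H48

open Pool.Agent.MP_2b113a_an.H33 Polynomial
open scoped InnerProductSpace

variable {L : Type} [LieRing L] [LieAlgebra ℚ L]

/-- The subalgebra generated by the iterated brackets of `y` with `x`. -/
def gen (x y : L) : Submodule ℚ L :=
  sInf {J | (∀ j : ℕ, (ad y ^ j) x ∈ J) ∧ ∀ a ∈ J, ∀ b ∈ J, ⁅a, b⁆ ∈ J}

theorem gen_le {x y : L} {J : Submodule ℚ L} (h1 : ∀ j : ℕ, (ad y ^ j) x ∈ J)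
    (h2 : ∀ a ∈ J, ∀ b ∈ J, ⁅a, b⁆ ∈ J) : gen x y ≤ J := sInf_le ⟨h1, h2⟩

theorem pow_mem_gen (x y : L) (j : ℕ) : (ad y ^ j) x ∈ gen x y :=
  Submodule.mem_sInf.2 fun _ hJ => hJ.1 j

theorem self_mem_gen (x y : L) : x ∈ gen x y := by simpa using pow_mem_gen x y 0

theorem lie_mem_gen {x y : L} : ∀ a ∈ gen x y, ∀ b ∈ gen x y, ⁅a, b⁆ ∈ gen x y :=
  fun a ha b hb => Submodule.mem_sInf.2 fun J hJ =>
    hJ.2 a (Submodule.mem_sInf.1 ha J hJ) b (Submodule.mem_sInf.1 hb J hJ)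

theorem gen_norm {x y : L} : ∀ a ∈ gen x y, ⁅y, a⁆ ∈ gen x y := fun a ha => by
  have : gen x y ≤ gen x y ⊓ (gen x y).comap (ad y) := by
    refine gen_le (fun j => ⟨pow_mem_gen x y j, ?_⟩) fun a ha b hb =>
      ⟨lie_mem_gen a ha.1 b hb.1, ?_⟩
    · have := pow_mem_gen x y (j + 1)
      rwa [pow_succ', Module.End.mul_apply] at this
    · show ⁅y, ⁅a, b⁆⁆ ∈ gen x y
      rw [leibniz_lie]
      exact add_mem (lie_mem_gen _ ha.2 b hb.1) (lie_mem_gen a ha.1 _ hb.2)
  exact (this ha).2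

theorem gen_le_of {x y : L} {n : Submodule ℚ L} (hn : ∀ a ∈ n, ∀ b ∈ n, ⁅a, b⁆ ∈ n) (hx : x ∈ n)
    (hy : y ∈ n) : gen x y ≤ n :=
  gen_le (fun j => pow_mem_of_stable (hn y hy) hx j) hn

theorem mem_span_of_mem_gen [Module.Finite ℚ L] {σ x y : L} (hσ : Diag σ) (hx : x ∈ pos σ)
    (hy : y ∈ pos σ) (h : y ∈ gen x y) : ∃ c : ℚ, y = c • x := by
  obtain ⟨W, N, h0, hN, hanti, -, hW⟩ := hσ.exists_chain
  have hl : ∀ k, ∀ a ∈ pos σ, ∀ b ∈ pos σ ⊓ W k, ⁅a, b⁆ ∈ pos σ ⊓ W (k + 1) :=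
    fun k a ha b hb => ⟨lie_mem_pos ha hb.1, hW k a ha b hb.2⟩
  have hm : ∀ k, pos σ ⊓ W (k + 1) ≤ pos σ ⊓ W k := fun k =>
    inf_le_inf_left _ (hanti (Nat.le_succ k))
  have key : ∀ k, y ∈ (ℚ ∙ x) ⊔ (pos σ ⊓ W k) := fun k => by
    induction k with
    | zero => exact Submodule.mem_sup_right ⟨hy, by simp [h0]⟩
    | succ k ih =>
      obtain ⟨_, ⟨c, rfl⟩, u, hu, e⟩ := (Submodule.mem_sup.1 ih).imp fun _ h =>
        And.imp_left Submodule.mem_span_singleton.1 h
      have h1 : ⁅y, x⁆ ∈ pos σ ⊓ W (k + 1) := by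
        rw [← e, add_lie, smul_lie, lie_self, smul_zero, zero_add, ← lie_skew]
        exact neg_mem (hl k x hx u hu)
      refine gen_le (fun j => ?_) (fun a ha b hb => ?_) h
      · rcases j with _ | j
        · exact Submodule.mem_sup_left (by simp)
        · rw [pow_succ, Module.End.mul_apply]
          exact Submodule.mem_sup_right
            (pow_mem_of_stable (fun z hz => hm _ (hl _ y hy z hz)) h1 j)
      · obtain ⟨_, ⟨c, rfl⟩, u, hu, rfl⟩ := (Submodule.mem_sup.1 ha).imp fun _ h =>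
          And.imp_left Submodule.mem_span_singleton.1 h
        obtain ⟨_, ⟨d, rfl⟩, v, hv, rfl⟩ := (Submodule.mem_sup.1 hb).imp fun _ h =>
          And.imp_left Submodule.mem_span_singleton.1 h
        refine Submodule.mem_sup_right (hm _ ?_)
        have e : ⁅c • x + u, d • x + v⁆ = ⁅c • x + u, v⁆ - d • ⁅x, u⁆ := by
          rw [lie_add, lie_smul, add_lie, smul_lie, lie_self, smul_zero, zero_add, ← lie_skew u x,
            smul_neg]
          abel
        rw [e]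
        exact sub_mem (hl _ _ (add_mem (Submodule.smul_mem _ _ hx) hu.1) v hv)
          (Submodule.smul_mem _ _ (hl _ x hx u hu))
  have := key N
  rw [hN, inf_bot_eq, sup_bot_eq, Submodule.mem_span_singleton] at this
  obtain ⟨c, hc⟩ := this
  exact ⟨c, hc.symm⟩

variable [Module.Finite ℚ L] {Γ : Type} [Group Γ] (A : AG L Γ)
  {H : Type} [NormedAddCommGroup H] [InnerProductSpace ℝ H] (π : Γ →* (H ≃ₗᵢ[ℝ] H))

/-- Adding an element of a normalised subalgebra. -/
theorem Hs_add (hp : PCStmt) {σ x y : L} (hσ : Diag σ) {i : Submodule ℚ L} (hi : i ≤ pos σ)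
    (hl : ∀ a ∈ i, ∀ b ∈ i, ⁅a, b⁆ ∈ i) (hx : x ∈ i) (hy : y ∈ pos σ) (hyi : ∀ a ∈ i, ⁅y, a⁆ ∈ i)
    {ξ : H} (h : ∀ a ∈ i, ξ ∈ Hs A π a) (h' : ξ ∈ Hs A π y) : ξ ∈ Hs A π (x + y) := by
  obtain ⟨l, hc, rfl⟩ := hσ.exists_cflag hi hl
  have hxy : x + y ∈ pos σ := add_mem (hi hx) hy
  obtain ⟨pl, e1, e0, e⟩ := hp L l (hc.flag fun z hz => mem_sp hz)
    (fun z hz => hσ.nil_of_mem_pos (hi (mem_sp hz))) hl x y hx hyi (hσ.nil_of_mem_pos hy)
    (hσ.nil_of_mem_pos hxy)
  have hm : ∀ a ∈ pl, a.2 ∈ sp l := fun a ha => mem_sp (e1 ▸ List.mem_map_of_mem ha)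
  intro ε hε
  have hε' : 0 < ε / (pl.length + 1) := by positivity
  have k1 := ev_list (φ := fun (a : ℚ[X] × L) r => a.1.eval r • a.2 ∈ lat A.b ∧
      ‖π (A.E (a.1.eval r • a.2)) ξ - ξ‖ ≤ ε / (pl.length + 1)) pl fun a ha =>
    ((ev_lat A a.2).and (h _ (hm a ha) _ hε')).comp (e0 a ha)
  refine ((k1.and ((ev_lat A y).and (h' _ hε'))).and (ev_lat A (x + y))).mono fun r hr => ?_
  obtain ⟨⟨r1, r2, r3⟩, r4⟩ := hr
  have hn : Nil (r • (x + y)) := (hσ.nil_of_mem_pos hxy).smul r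
  have hu := A.E_unip σ hσ (((pl.map fun a => a.1.eval r • a.2) ++ [r • y]) ++ [-(r • (x + y))])
    (fun z hz => by
      simp only [List.mem_append, List.mem_map, List.mem_singleton] at hz
      rcases hz with (⟨a, ha, rfl⟩ | rfl) | rfl
      · exact ⟨(r1 a ha).1, Submodule.smul_mem _ _ (hi (hm a ha))⟩
      · exact ⟨r2, Submodule.smul_mem _ _ hy⟩
      · exact ⟨neg_mem r4, neg_mem (Submodule.smul_mem _ _ hxy)⟩)
    (by
      have e2 := e r
      simp only [List.map_append, List.prod_append, List.map_map, List.map_singleton,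
        List.prod_singleton, Function.comp_def]
      rw [← e2]
      exact ex_mul_neg hn)
  rw [List.map_append, List.prod_append, List.map_singleton, List.prod_singleton, E_neg A r4 hn,
    mul_inv_eq_one] at hu
  rw [← hu]
  refine (norm_prod_le π (ε := ε / (pl.length + 1)) _ fun g hg => ?_).trans (le_of_eq ?_)
  · simp only [List.map_append, List.mem_append, List.mem_map, List.map_singleton,
      List.mem_singleton] at hg
    rcases hg with ⟨_, ⟨a, ha, rfl⟩, rfl⟩ | rfl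
    · exact (r1 a ha).2
    · exact r3
  · simp only [List.length_map, List.length_append, List.length_singleton]
    push_cast
    field_simp

variable [CompleteSpace H]

/-- The statement that is proved by induction. -/
def Good (x y : L) : Prop :=
  (∀ ζ, (Hs A π x).starProjection ((Hs A π y).starProjection ζ) =
    (Hs A π y).starProjection ((Hs A π x).starProjection ζ)) ∧
  ∀ ξ ∈ Hs A π x, ξ ∈ Hs A π y → ξ ∈ Hs A π (x + y) ∧ ξ ∈ Hs A π ⁅x, y⁆

omit [Module.Finite ℚ L] in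
theorem good_smul (x : L) (c : ℚ) : Good A π x (c • x) := by
  refine ⟨fun ζ => (proj_comm _ _ (fun v hv => ?_) ζ).symm, fun ξ hξ _ => ⟨?_, ?_⟩⟩
  · rwa [Submodule.starProjection_eq_self_iff.2 (Hs_smul A π hv c)]
  · have := Hs_smul A π hξ (1 + c)
    rwa [add_smul, one_smul] at this
  · rw [lie_smul, lie_self, smul_zero]
    exact Hs_zero A π ξ

/-- The elements of a good subalgebra that almost fix a vector. -/
def fixers (i : Submodule ℚ L) (hi : ∀ a ∈ i, ∀ b ∈ i, Good A π a b) (v : H) : Submodule ℚ L where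
  carrier := {a | a ∈ i ∧ v ∈ Hs A π a}
  zero_mem' := ⟨zero_mem _, Hs_zero A π v⟩
  add_mem' := fun {a b} ha hb => ⟨add_mem ha.1 hb.1, ((hi a ha.1 b hb.1).2 v ha.2 hb.2).1⟩
  smul_mem' := fun c _ ha => ⟨Submodule.smul_mem _ _ ha.1, Hs_smul A π ha.2 c⟩

theorem good_step (hp : PCStmt) {σ x y : L} (hσ : Diag σ) (hx : x ∈ pos σ) (hy : y ∈ pos σ)
    (ih : ∀ a ∈ gen x y, ∀ b ∈ gen x y, Good A π a b) : Good A π x y := by
  have hi : gen x y ≤ pos σ := gen_le_of (fun a ha b hb => lie_mem_pos ha hb) hx hy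
  have hny := hσ.nil_of_mem_pos hy
  have hnx := hσ.nil_of_mem_pos hx
  obtain ⟨W, hW⟩ : ∃ W : Submodule ℝ H, ∀ v, v ∈ W ↔ ∀ a ∈ gen x y, v ∈ Hs A π a :=
    ⟨⨅ a ∈ gen x y, Hs A π a, fun v => by simp only [Submodule.mem_iInf]⟩
  have hWc : IsClosed (W : Set H) := by
    have : (W : Set H) = ⋂ a ∈ gen x y, (Hs A π a : Set H) := by
      ext v
      simp only [SetLike.mem_coe, Set.mem_iInter, hW]
    rw [this]
    exact isClosed_biInter fun a _ => isClosed_Hs A π a
  have := hWc.completeSpace_coe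
  have hgen : ∀ v, (∀ j : ℕ, v ∈ Hs A π ((ad y ^ j) x)) → v ∈ W := fun v hv =>
    (hW v).2 fun a ha => (gen_le (J := fixers A π _ ih v) (fun j => ⟨pow_mem_gen x y j, hv j⟩)
      (fun a ha b hb => ⟨lie_mem_gen a ha.1 b hb.1, ((ih a ha.1 b hb.1).2 v ha.2 hb.2).2⟩) ha).2
  have hex : ∀ r : ℚ, ∀ a ∈ gen x y, ex (r • y) a ∈ gen x y := fun r a ha =>
    ex_mem (fun z hz => by rw [smul_lie]; exact Submodule.smul_mem _ _ (gen_norm z hz)) ha
  have hst : ∀ r : ℚ, r • y ∈ lat A.b → ∀ v ∈ W, π (A.E (r • y)) v ∈ W := fun r hr v hv =>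
    (hW _).2 fun a ha => by
      have h1 := hex (-r) a ha
      have := Hs_conj A π (hσ.nil_of_mem_pos (hi h1)) ((hW v).1 hv _ h1) (A.E (r • y))
      rwa [A.act_E _ hr (hny.smul r), neg_smul, ex_ex_neg (hny.smul r)] at this
  have key : ∀ ζ ∈ Hs A π y, ζ ∈ Wᗮ → (Hs A π x).starProjection ζ = 0 := fun ζ hζ hζ' => by
    by_contra hne
    have hc : 0 < ‖(Hs A π x).starProjection ζ‖ / 2 := half_pos (norm_pos_iff.2 hne)
    obtain ⟨Q, hQ, hq⟩ := (hζ _ hc).and (ev_lat A y)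
    obtain ⟨N, hN⟩ := hny
    have hny : Nil y := ⟨N, hN⟩
    obtain ⟨K, hK⟩ := exists_nat_gt (N * ‖ζ‖ ^ 2 / (‖(Hs A π x).starProjection ζ‖ / 2) ^ 2)
    have hs := sum_le (fun m : ℕ => Hs A π (ex (((m : ℚ) * Q) • y) x))
      (fun m n => (ih _ (hex _ _ (self_mem_gen x y)) _ (hex _ _ (self_mem_gen x y))).1)
      (Finset.range K) N Wᗮ
      (fun m v hv => (Submodule.mem_orthogonal _ _).2 fun w hw => by
        rw [← Submodule.inner_starProjection_left_eq_right,
          Submodule.starProjection_eq_self_iff.2 ((hW w).1 hw _ (hex _ _ (self_mem_gen x y)))]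
        exact (Submodule.mem_orthogonal _ _).1 hv w hw)
      (fun v hv T _ hT hv' => by
        have hQ' : (Q : ℚ) ≠ 0 := Nat.cast_ne_zero.2 hQ.ne'
        have hvan := vander (W := fixers A π _ ih v) (N := N)
          (w := fun i => (i.factorial : ℚ)⁻¹ • (ad y ^ i) x)
          (T := T.image fun m : ℕ => (m : ℚ) * Q)
          (by
            rw [Finset.card_image_of_injective _ fun a b h =>
              Nat.cast_injective (mul_right_cancel₀ hQ' h)]
            omega)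
          (fun t ht => by
            obtain ⟨m, hm, rfl⟩ := Finset.mem_image.1 ht
            rw [← ex_smul_apply hny (by rw [hN]; rfl)]
            exact ⟨hex _ _ (self_mem_gen x y), hv' m hm⟩)
        have hvW : v ∈ W := hgen v fun j => by
          rcases lt_or_ge j N with hj | hj
          · have := Hs_smul A π (hvan j hj).2 (j.factorial : ℚ)
            rwa [smul_smul, mul_inv_cancel₀ (Nat.cast_ne_zero.2 j.factorial_ne_zero),
              one_smul] at this
          · rw [pow_eq_zero_of_le hj hN]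
            exact Hs_zero A π v
        exact inner_self_eq_zero.1 ((Submodule.mem_orthogonal _ _).1 hv v hvW)) ζ hζ'
    have hlow : ∀ m ∈ Finset.range K, (‖(Hs A π x).starProjection ζ‖ / 2) ^ 2 ≤
        ‖(Hs A π (ex (((m : ℚ) * Q) • y) x)).starProjection ζ‖ ^ 2 := fun m _ => by
      have h1 := (hq m).2
      have h2 := (hq (-m)).1
      simp only [Int.cast_natCast, Int.cast_neg, neg_mul, neg_smul] at h1 h2
      rw [E_neg A h1 (hny.smul _)] at h2
      have h3 := proj_conj A π hnx (A.E (((m : ℚ) * Q) • y)) (π (A.E (((m : ℚ) * Q) • y))⁻¹ ζ)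
      have h4 : π (A.E (((m : ℚ) * Q) • y)) (π (A.E (((m : ℚ) * Q) • y))⁻¹ ζ) = ζ := by
        rw [← pi_mul, mul_inv_cancel, map_one]; rfl
      rw [h4] at h3
      have h5 : Hs A π (ex (((m : ℚ) * Q) • y) x) =
          Hs A π (A.act (A.E (((m : ℚ) * Q) • y)) x) := by rw [A.act_E _ h1 (hny.smul _)]
      have h6 : ‖(Hs A π (ex (((m : ℚ) * Q) • y) x)).starProjection ζ‖ =
          ‖(Hs A π x).starProjection (π (A.E (((m : ℚ) * Q) • y))⁻¹ ζ)‖ := by
        simp only [h5]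
        rw [h3, LinearIsometryEquiv.norm_map]
      have h7 := ((Hs A π x).norm_starProjection_apply_le
        (π (A.E (((m : ℚ) * Q) • y))⁻¹ ζ - ζ)).trans h2
      rw [map_sub, norm_sub_rev] at h7
      have h8 := norm_sub_norm_le ((Hs A π x).starProjection ζ)
        ((Hs A π x).starProjection (π (A.E (((m : ℚ) * Q) • y))⁻¹ ζ))
      rw [h6]
      exact pow_le_pow_left₀ hc.le (by linarith) 2
    have hsum := (Finset.card_nsmul_le_sum _ _ _ hlow).trans hs
    rw [Finset.card_range, nsmul_eq_mul] at hsum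
    rw [div_lt_iff₀ (pow_pos hc 2)] at hK
    linarith
  have key2 : ∀ ξ ∈ Hs A π y, (Hs A π x).starProjection ξ = W.starProjection ξ := fun ξ hξ => by
    have h1 := proj_mem_Hs A π hny W hst hξ
    have h2 := key _ (sub_mem hξ h1) (W.sub_starProjection_mem_orthogonal ξ)
    rw [map_sub, Submodule.starProjection_eq_self_iff.2
      ((hW _).1 (W.starProjection_apply_mem ξ) x (self_mem_gen x y)), sub_eq_zero] at h2
    exact h2
  refine ⟨proj_comm _ _ fun v hv => ?_, fun ξ hξ hξ' => ?_⟩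
  · rw [key2 v hv]
    exact proj_mem_Hs A π hny W hst hv
  · have h1 : ξ ∈ W := by
      have := key2 ξ hξ'
      rw [Submodule.starProjection_eq_self_iff.2 hξ] at this
      exact Submodule.starProjection_eq_self_iff.1 this.symm
    refine ⟨Hs_add A π hp hσ hi lie_mem_gen (self_mem_gen x y) hy gen_norm ((hW ξ).1 h1) hξ', ?_⟩
    refine (hW ξ).1 h1 _ ?_
    rw [← lie_skew]
    exact neg_mem (gen_norm x (self_mem_gen x y))

theorem good_all (hp : PCStmt) {σ : L} (hσ : Diag σ) (k : ℕ) :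
    ∀ n : Submodule ℚ L, Module.finrank ℚ n = k → n ≤ pos σ → (∀ a ∈ n, ∀ b ∈ n, ⁅a, b⁆ ∈ n) →
      ∀ x ∈ n, ∀ y ∈ n, Good A π x y := by
  induction k using Nat.strong_induction_on with
  | _ k ih =>
    intro n hk hn hl x hx y hy
    by_cases h : y ∈ gen x y
    · obtain ⟨c, rfl⟩ := mem_span_of_mem_gen hσ (hn hx) (hn hy) h
      exact good_smul A π x c
    · have hle := gen_le_of hl hx hy
      have hlt : gen x y < n := lt_of_le_of_ne hle fun e => h (e ▸ hy)
      exact good_step A π hp hσ (hn hx) (hn hy)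
        (ih _ (hk ▸ Submodule.finrank_lt_finrank_of_lt hlt) _ rfl (hle.trans hn) lie_mem_gen)

theorem good (hp : PCStmt) {σ x y : L} (hσ : Diag σ) (hx : x ∈ pos σ) (hy : y ∈ pos σ) :
    Good A π x y :=
  good_all A π hp hσ _ (pos σ) rfl le_rfl (fun _ ha _ hb => lie_mem_pos ha hb) x hx y hy

theorem mst (hp : PCStmt) : MStmt := by
  intro L _ _ _ Γ _ A H _ _ _ π
  refine ⟨fun ξ => ⟨?_, fun c x hx => ?_, fun σ hσ x hx y hy h h' => ?_,
    fun σ hσ x hx y hy h h' => ?_⟩, fun y ξ => (Hs A π y).starProjection ξ, fun y hy ξ => ?_,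
    fun ξ y hy => ?_, fun σ hσ x hx y hy ξ => ⟨(good A π hp hσ hx hy).1 ξ, fun h => ?_⟩,
    fun C hC hc hi y ζ ξ hζ hy hξ => ⟨proj_mem_convex A π hC hc hi y hξ.1, fun η hη h0 => ?_⟩⟩
  · exact (mem_R A π).2 ⟨nil_zero, Hs_zero A π ξ⟩
  · rw [mem_R] at hx ⊢
    exact ⟨hx.1.smul c, Hs_smul A π hx.2 c⟩
  · rw [mem_R] at h h' ⊢
    exact ⟨hσ.nil_of_mem_pos (add_mem hx hy), ((good A π hp hσ hx hy).2 ξ h.2 h'.2).1⟩
  · rw [mem_R] at h h' ⊢
    exact ⟨hσ.nil_of_mem_pos (lie_mem_pos hx hy), ((good A π hp hσ hx hy).2 ξ h.2 h'.2).2⟩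
  · exact (mem_R A π).2 ⟨hy, (Hs A π y).starProjection_apply_mem ξ⟩
  · exact Submodule.starProjection_eq_self_iff.2 ((mem_R A π).1 hy).2
  · rw [mem_R] at h ⊢
    refine ⟨h.1, Submodule.starProjection_eq_self_iff.1 ?_⟩
    rw [(good A π hp hσ hx hy).1 ξ, Submodule.starProjection_eq_self_iff.2 h.2]
  · rw [Submodule.inner_starProjection_left_eq_right] at h0
    have h1 := hξ.2 _ (proj_mem_convex A π hC hc hi y hη) h0
    refine hζ.2 η hη ?_
    rw [← Submodule.starProjection_eq_self_iff.2 ((mem_R A π).1 hy).2,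
      Submodule.inner_starProjection_left_eq_right, h1, inner_zero_right]

end Pool.Agent.MP_2b113a_an.H48
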