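import Mathlib

/-!
Hilbert space lemmas about commuting orthogonal projections.
-/

namespace Pool.Agent.MP_2b113a_an.H48

open scoped InnerProductSpace

variable {H : Type} [NormedAddCommGroup H] [InnerProductSpace ℝ H]

theorem proj_idem (U : Submodule ℝ H) [U.HasOrthogonalProjection] (v : H) :
    U.starProjection (U.starProjection v) = U.starProjection v :=
  Submodule.starProjection_eq_self_iff.2 (U.starProjection_apply_mem v)

/-- An isometry that matches two subspaces intertwines the projections. -/
theorem proj_map (T : H ≃ₗᵢ[ℝ] H) (U V : Submodule ℝ H) [U.HasOrthogonalProjection]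
    [V.HasOrthogonalProjection] (h : ∀ u ∈ U, T u ∈ V) (h' : ∀ v ∈ V, T.symm v ∈ U) (ζ : H) :
    V.starProjection (T ζ) = T (U.starProjection ζ) := by
  refine Submodule.eq_starProjection_of_mem_of_inner_eq_zero
    (h _ (U.starProjection_apply_mem ζ)) fun w hw => ?_
  have e : w = T (T.symm w) := (T.apply_symm_apply w).symm
  rw [← map_sub, e, T.inner_map_map]
  exact U.starProjection_inner_eq_zero ζ _ (h' w hw)

/-- If the projection on `U` preserves `V` then the two projections commute. -/
theorem proj_comm (U V : Submodule ℝ H) [U.HasOrthogonalProjection] [V.HasOrthogonalProjection]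
    (h : ∀ v ∈ V, U.starProjection v ∈ V) (ζ : H) :
    U.starProjection (V.starProjection ζ) = V.starProjection (U.starProjection ζ) := by
  refine (Submodule.eq_starProjection_of_mem_of_inner_eq_zero
    (h _ (V.starProjection_apply_mem ζ)) fun w hw => ?_).symm
  rw [← map_sub, Submodule.inner_starProjection_left_eq_right]
  exact V.starProjection_inner_eq_zero ζ _ (h w hw)

theorem norm_sq_split (U : Submodule ℝ H) [U.HasOrthogonalProjection] (v : H) :
    ‖v‖ ^ 2 = ‖U.starProjection v‖ ^ 2 + ‖v - U.starProjection v‖ ^ 2 := by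
  have h0 : ⟪U.starProjection v, v - U.starProjection v⟫_ℝ = 0 := by
    rw [real_inner_comm]
    exact U.starProjection_inner_eq_zero v _ (U.starProjection_apply_mem v)
  have e : v = U.starProjection v + (v - U.starProjection v) := by abel
  have := norm_add_sq_real (U.starProjection v) (v - U.starProjection v)
  rw [← e, h0] at this
  linarith

/-- The sum of the squared norms of commuting projections is bounded by the multiplicity. -/
theorem sum_le {ι : Type} [DecidableEq ι] (U : ι → Submodule ℝ H)
    [∀ n, (U n).HasOrthogonalProjection]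
    (hc : ∀ m n ζ, (U m).starProjection ((U n).starProjection ζ) =
      (U n).starProjection ((U m).starProjection ζ)) (F : Finset ι) :
    ∀ (e : ℕ) (V : Submodule ℝ H), (∀ n, ∀ v ∈ V, (U n).starProjection v ∈ V) →
      (∀ v ∈ V, ∀ T ⊆ F, T.card = e + 1 → (∀ n ∈ T, v ∈ U n) → v = 0) →
      ∀ ζ ∈ V, ∑ n ∈ F, ‖(U n).starProjection ζ‖ ^ 2 ≤ e * ‖ζ‖ ^ 2 := by
  induction F using Finset.induction_on with
  | empty =>
    intro e V _ _ ζ _
    rw [Finset.sum_empty]
    positivity
  | insert a F ha ih =>
    intro e V hV h0 ζ hζ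
    rw [Finset.sum_insert ha]
    have h1 : (U a).starProjection ζ ∈ V := hV a ζ hζ
    have h2 : ζ - (U a).starProjection ζ ∈ V := V.sub_mem hζ h1
    have hs : ∀ n, ‖(U n).starProjection ζ‖ ^ 2 =
        ‖(U n).starProjection ((U a).starProjection ζ)‖ ^ 2 +
          ‖(U n).starProjection (ζ - (U a).starProjection ζ)‖ ^ 2 := fun n => by
      rw [map_sub, hc n a ζ]
      exact norm_sq_split (U a) _
    have i2 := ih e V hV (fun v hv T hT => h0 v hv T (hT.trans (Finset.subset_insert a F))) _ h2
    rw [Finset.sum_congr rfl fun n _ => hs n, Finset.sum_add_distrib, norm_sq_split (U a) ζ]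
    rcases e with _ | e
    · have hz : (U a).starProjection ζ = 0 :=
        h0 _ h1 {a} (by simp) (by simp) (by simp)
      simp only [hz, map_zero, norm_zero] at i2 ⊢
      simpa using i2
    · have i1 := ih e (V ⊓ U a) (fun n v hv => ⟨hV n v hv.1, by
          have : (U a).starProjection ((U n).starProjection v) = (U n).starProjection v := by
            rw [hc a n v, Submodule.starProjection_eq_self_iff.2 hv.2]
          exact Submodule.starProjection_eq_self_iff.1 this⟩)
        (fun v hv T hT hcard hU => h0 v hv.1 (insert a T) (Finset.insert_subset_insert a hT)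
          (by rw [Finset.card_insert_of_notMem fun h => ha (hT h), hcard])
          (fun n hn => by
            rcases Finset.mem_insert.1 hn with rfl | hn
            · exact hv.2
            · exact hU n hn)) _ ⟨h1, (U a).starProjection_apply_mem ζ⟩
      push_cast at i2 ⊢
      linarith

/-- The nearest point of a closed convex set. -/
theorem exists_near [CompleteSpace H] {C : Set H} (hC : IsClosed C) (hc : Convex ℝ C)
    (hne : C.Nonempty) (w : H) : ∃ c ∈ C, ∀ c' ∈ C, ⟪w - c, c' - c⟫_ℝ ≤ 0 := by
  obtain ⟨c, hcC, h⟩ := exists_norm_eq_iInf_of_complete_convex hne hC.isComplete hc w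
  exact ⟨c, hcC, (norm_eq_iInf_iff_real_inner_le_zero hc hcC).1 h⟩

/-- The nearest point moves less than the given point. -/
theorem near_move {C : Set H} {w c : H} (hcC : c ∈ C) (h : ∀ c' ∈ C, ⟪w - c, c' - c⟫_ℝ ≤ 0)
    (T : H ≃ₗᵢ[ℝ] H) (hT : ∀ η ∈ C, T η ∈ C) (hT' : ∀ η ∈ C, T.symm η ∈ C) :
    ‖T c - c‖ ≤ ‖T w - w‖ := by
  have h1 := h _ (hT c hcC)
  have h2 := h _ (hT' c hcC)
  rw [← T.inner_map_map, map_sub, map_sub, T.apply_symm_apply] at h2
  have e : T w - w = (T c - c) + (T w - T c) - (w - c) := by abel
  have h3 : ⟪T w - T c, T c - c⟫_ℝ = -⟪T w - T c, c - T c⟫_ℝ := by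
    rw [← inner_neg_right, neg_sub]
  have h4 : ‖T c - c‖ ^ 2 ≤ ⟪T w - w, T c - c⟫_ℝ := by
    rw [e, inner_sub_left, inner_add_left, real_inner_self_eq_norm_sq, h3]
    linarith
  have h5 := h4.trans (real_inner_le_norm _ _)
  rcases (norm_nonneg (T c - c)).eq_or_lt with h0 | h0
  · rw [← h0]; exact norm_nonneg _
  · rw [sq] at h5
    exact le_of_mul_le_mul_right h5 h0

end Pool.Agent.MP_2b113a_an.H48
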