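import Pool.Agent.MP_2b113a_an.H33.LieB
import Pool.Agent.MP_2b113a_an.H48.MA

/-!
The subspaces of vectors that are almost fixed by high multiples of a nilpotent element.
-/

namespace Pool.Agent.MP_2b113a_an.H48

open Pool.Agent.MP_2b113a_an.H33 Polynomial
open scoped InnerProductSpace

/-- A property holds on all integer multiples of some positive integer. -/
def Ev (φ : ℚ → Prop) : Prop := ∃ Q : ℕ, 0 < Q ∧ ∀ t : ℤ, φ ((t : ℚ) * Q)

theorem Ev.mono {φ ψ : ℚ → Prop} (h : Ev φ) (h' : ∀ r, φ r → ψ r) : Ev ψ := by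
  obtain ⟨Q, hQ, h⟩ := h
  exact ⟨Q, hQ, fun t => h' _ (h t)⟩

theorem Ev.and {φ ψ : ℚ → Prop} (h : Ev φ) (h' : Ev ψ) : Ev fun r => φ r ∧ ψ r := by
  obtain ⟨Q, hQ, h⟩ := h
  obtain ⟨Q', hQ', h'⟩ := h'
  refine ⟨Q * Q', Nat.mul_pos hQ hQ', fun t => ⟨?_, ?_⟩⟩
  · have e : (t : ℚ) * ((Q * Q' : ℕ) : ℚ) = ((t * Q' : ℤ) : ℚ) * Q := by push_cast; ring
    rw [e]; exact h _
  · have e : (t : ℚ) * ((Q * Q' : ℕ) : ℚ) = ((t * Q : ℤ) : ℚ) * Q' := by push_cast; ring
    rw [e]; exact h' _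

theorem ev_of_forall {φ : ℚ → Prop} (h : ∀ r, φ r) : Ev φ := ⟨1, one_pos, fun _ => h _⟩

theorem ev_list {α : Type} {φ : α → ℚ → Prop} :
    ∀ l : List α, (∀ a ∈ l, Ev (φ a)) → Ev fun r => ∀ a ∈ l, φ a r
  | [], _ => ev_of_forall fun _ _ h => absurd h List.not_mem_nil
  | a :: l, h => ((h a List.mem_cons_self).and
      (ev_list l fun b hb => h b (List.mem_cons_of_mem _ hb))).mono fun r hr b hb => by
        rcases List.mem_cons.1 hb with rfl | hb
        · exact hr.1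
        · exact hr.2 b hb

theorem exists_den (p : ℚ[X]) : ∃ D : ℕ, 0 < D ∧ ∀ t : ℤ, ∃ s : ℤ, (D : ℚ) * p.eval (t : ℚ) = s := by
  induction p using Polynomial.induction_on' with
  | add p q hp hq =>
    obtain ⟨D, hD, hp⟩ := hp
    obtain ⟨D', hD', hq⟩ := hq
    refine ⟨D * D', Nat.mul_pos hD hD', fun t => ?_⟩
    obtain ⟨s, hs⟩ := hp t
    obtain ⟨s', hs'⟩ := hq t
    refine ⟨D' * s + D * s', ?_⟩
    push_cast
    rw [← hs, ← hs', eval_add]
    ring
  | monomial n a =>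
    refine ⟨a.den, a.den_pos, fun t => ⟨a.num * t ^ n, ?_⟩⟩
    push_cast
    rw [eval_monomial, ← mul_assoc, Rat.den_mul_eq_num]

theorem Ev.comp {φ : ℚ → Prop} (h : Ev φ) {p : ℚ[X]} (hp : p.eval 0 = 0) :
    Ev fun r => φ (p.eval r) := by
  obtain ⟨Q, hQ, h⟩ := h
  obtain ⟨q, rfl⟩ : X ∣ p := X_dvd_iff.2 (by rwa [coeff_zero_eq_eval_zero])
  obtain ⟨D, hD, hq⟩ := exists_den q
  refine ⟨D * Q, Nat.mul_pos hD hQ, fun t => ?_⟩
  obtain ⟨s, hs⟩ := hq (t * (D * Q))
  have e : (X * q).eval ((t : ℚ) * ((D * Q : ℕ) : ℚ)) = ((t * s : ℤ) : ℚ) * Q := by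
    push_cast at hs ⊢
    rw [eval_mul, eval_X, ← hs]
    ring
  rw [e]
  exact h _

theorem Ev.mul {φ : ℚ → Prop} (h : Ev φ) (c : ℚ) : Ev fun r => φ (r * c) := by
  refine (h.comp (p := X * C c) (by simp)).mono fun r hr => ?_
  rwa [eval_mul, eval_X, eval_C] at hr

variable {L : Type} [LieRing L] [LieAlgebra ℚ L] {Γ : Type} [Group Γ] (A : AG L Γ)
  {H : Type} [NormedAddCommGroup H] [InnerProductSpace ℝ H] (π : Γ →* (H ≃ₗᵢ[ℝ] H))

theorem ev_lat (x : L) : Ev fun r => r • x ∈ lat A.b := by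
  obtain ⟨N, hN, h⟩ := exists_smul_mem_lat A.b x
  refine ⟨N, hN, fun t => ?_⟩
  show ((t : ℚ) * N) • x ∈ lat A.b
  rw [mul_smul]
  exact lat_int_smul h t

theorem E_zero : A.E 0 = 1 := by
  have := A.E_add 0 (zero_mem _) 0 (zero_mem _) nil_zero nil_zero (lie_self _)
  rw [add_zero] at this
  exact left_eq_mul.1 this

theorem E_neg {x : L} (hx : x ∈ lat A.b) (hn : Nil x) : A.E (-x) = (A.E x)⁻¹ := by
  have := A.E_add x hx (-x) (neg_mem hx) hn hn.neg (by simp)
  rw [add_neg_cancel, E_zero] at this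
  exact eq_inv_of_mul_eq_one_right this.symm

theorem act_aut (g : Γ) : IsAut (A.act g) :=
  isAut_of_inv (g' := A.act g⁻¹) (by rw [← map_mul, mul_inv_cancel, map_one])
    (by rw [← map_mul, inv_mul_cancel, map_one]) (A.act_lie g)

theorem pi_symm (g : Γ) (v : H) : (π g).symm v = π g⁻¹ v := by
  rw [map_inv]; rfl

theorem pi_mul (g h : Γ) (v : H) : π (g * h) v = π g (π h v) := by
  rw [map_mul]; rfl

theorem pi_inv_pi (g : Γ) (v : H) : π g⁻¹ (π g v) = v := by
  rw [← pi_symm]; exact (π g).symm_apply_apply v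

theorem norm_prod_le {ξ : H} {ε : ℝ} :
    ∀ l : List Γ, (∀ g ∈ l, ‖π g ξ - ξ‖ ≤ ε) → ‖π l.prod ξ - ξ‖ ≤ l.length * ε
  | [], _ => by simp
  | g :: l, h => by
    have h1 := h g List.mem_cons_self
    have h2 := norm_prod_le l fun b hb => h b (List.mem_cons_of_mem _ hb)
    have e : π (g :: l).prod ξ - ξ = π g (π l.prod ξ - ξ) + (π g ξ - ξ) := by
      rw [List.prod_cons, pi_mul, map_sub]; abel
    rw [e, List.length_cons]
    refine (norm_add_le _ _).trans ?_
    rw [(π g).norm_map]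
    push_cast
    linarith

/-- The vectors that are almost fixed by the high multiples of `x`. -/
def Hs (x : L) : Submodule ℝ H where
  carrier := {ξ | ∀ ε : ℝ, 0 < ε → Ev fun r => ‖π (A.E (r • x)) ξ - ξ‖ ≤ ε}
  zero_mem' := fun ε hε => ev_of_forall fun r => by simpa using hε.le
  add_mem' := fun {a b} ha hb ε hε =>
    ((ha (ε / 2) (half_pos hε)).and (hb (ε / 2) (half_pos hε))).mono fun r hr => by
      have e : π (A.E (r • x)) (a + b) - (a + b) =
          (π (A.E (r • x)) a - a) + (π (A.E (r • x)) b - b) := by rw [map_add]; abel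
      rw [e]
      refine (norm_add_le _ _).trans ?_
      linarith [hr.1, hr.2]
  smul_mem' := fun c a ha ε hε =>
    (ha (ε / (|c| + 1)) (by positivity)).mono fun r hr => by
      rw [map_smul, ← smul_sub, norm_smul, Real.norm_eq_abs]
      have h1 : 0 < |c| + 1 := by positivity
      rw [le_div_iff₀ h1] at hr
      have h2 := norm_nonneg (π (A.E (r • x)) a - a)
      linarith

theorem mem_Hs {x : L} {ξ : H} :
    ξ ∈ Hs A π x ↔ ∀ ε : ℝ, 0 < ε → Ev fun r => ‖π (A.E (r • x)) ξ - ξ‖ ≤ ε := Iff.rfl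

theorem mem_R {x : L} {ξ : H} : x ∈ A.R π ξ ↔ Nil x ∧ ξ ∈ Hs A π x := by
  refine and_congr_right fun _ => forall_congr' fun ε => forall_congr' fun _ => ⟨?_, fun h => ?_⟩
  · rintro ⟨Q, hQ, -, h⟩
    exact ⟨Q, hQ, h⟩
  · obtain ⟨Q, hQ, h⟩ := h.and (ev_lat A x)
    exact ⟨Q, hQ, by simpa using (h 1).2, fun t => (h t).1⟩

theorem isClosed_Hs (x : L) : IsClosed (Hs A π x : Set H) := by
  refine isClosed_of_closure_subset fun ξ hξ ε hε => ?_
  obtain ⟨η, hη, hd⟩ := Metric.mem_closure_iff.1 hξ (ε / 3) (by positivity)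
  refine (hη (ε / 3) (by positivity)).mono fun r hr => ?_
  rw [dist_eq_norm] at hd
  have e : π (A.E (r • x)) ξ - ξ =
      π (A.E (r • x)) (ξ - η) + (π (A.E (r • x)) η - η) - (ξ - η) := by rw [map_sub]; abel
  rw [e]
  refine (norm_sub_le _ _).trans ?_
  have := norm_add_le (π (A.E (r • x)) (ξ - η)) (π (A.E (r • x)) η - η)
  rw [LinearIsometryEquiv.norm_map] at this
  linarith

instance [CompleteSpace H] (x : L) : (Hs A π x).HasOrthogonalProjection :=
  haveI := (isClosed_Hs A π x).completeSpace_coe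
  inferInstance

theorem Hs_zero (ξ : H) : ξ ∈ Hs A π 0 := fun ε hε => ev_of_forall fun r => by
  simpa [E_zero] using hε.le

theorem Hs_smul {x : L} {ξ : H} (h : ξ ∈ Hs A π x) (c : ℚ) : ξ ∈ Hs A π (c • x) := fun ε hε =>
  ((h ε hε).mul c).mono fun r hr => by rwa [smul_smul]

theorem Hs_conj {x : L} (hx : Nil x) {ξ : H} (h : ξ ∈ Hs A π x) (g : Γ) :
    π g ξ ∈ Hs A π (A.act g x) := fun ε hε =>
  ((h ε hε).and (ev_lat A x)).mono fun r hr => by
    rw [← map_smul, ← A.E_conj g _ hr.2 (hx.smul r), pi_mul, pi_mul, pi_inv_pi, ← map_sub,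
      LinearIsometryEquiv.norm_map]
    exact hr.1

theorem proj_conj [CompleteSpace H] {x : L} (hx : Nil x) (g : Γ) (ζ : H) :
    (Hs A π (A.act g x)).starProjection (π g ζ) = π g ((Hs A π x).starProjection ζ) := by
  refine proj_map (π g) _ _ (fun u hu => Hs_conj A π hx hu g) (fun v hv => ?_) ζ
  have := Hs_conj A π ((act_aut A g).nil hx) hv g⁻¹
  rwa [← Module.End.mul_apply, ← map_mul, inv_mul_cancel, map_one, Module.End.one_apply,
    ← pi_symm] at this

/-- The projection on a subspace that is stable under a one parameter group preserves `Hs`. -/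
theorem proj_mem_Hs {y : L} (hy : Nil y) (W : Submodule ℝ H) [W.HasOrthogonalProjection]
    (hW : ∀ r : ℚ, r • y ∈ lat A.b → ∀ v ∈ W, π (A.E (r • y)) v ∈ W) {ξ : H}
    (h : ξ ∈ Hs A π y) : W.starProjection ξ ∈ Hs A π y := fun ε hε =>
  ((h ε hε).and (ev_lat A y)).mono fun r hr => by
    have e := proj_map (π (A.E (r • y))) W W (hW r hr.2) (fun v hv => by
      rw [pi_symm, ← E_neg A hr.2 (hy.smul r), ← neg_smul]
      exact hW (-r) (by rw [neg_smul]; exact neg_mem hr.2) v hv) ξ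
    rw [← e, ← map_sub]
    exact (W.norm_starProjection_apply_le _).trans hr.1

/-- The projections preserve invariant closed convex sets. -/
theorem proj_mem_convex [CompleteSpace H] {C : Set H} (hC : IsClosed C) (hc : Convex ℝ C)
    (hi : ∀ g, ∀ η ∈ C, π g η ∈ C) (y : L) {η : H} (hη : η ∈ C) :
    (Hs A π y).starProjection η ∈ C := by
  have hw := (Hs A π y).starProjection_apply_mem η
  obtain ⟨c, hcC, h⟩ := exists_near hC hc ⟨η, hη⟩ ((Hs A π y).starProjection η)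
  have hcH : c ∈ Hs A π y := fun ε hε => (hw ε hε).mono fun r hr =>
    (near_move hcC h _ (hi _) fun v hv => by rw [pi_symm]; exact hi _ v hv).trans hr
  have h1 := h η hη
  have h2 := (Hs A π y).starProjection_inner_eq_zero η _ ((Hs A π y).sub_mem hw hcH)
  have e : η - c = (η - (Hs A π y).starProjection η) + ((Hs A π y).starProjection η - c) := by
    abel
  rw [real_inner_comm] at h2
  rw [e, inner_add_right, h2, zero_add, real_inner_self_eq_norm_sq] at h1
  have h3 : ‖(Hs A π y).starProjection η - c‖ = 0 :=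
    pow_eq_zero_iff two_ne_zero |>.1 (le_antisymm h1 (sq_nonneg _))
  rw [norm_eq_zero, sub_eq_zero] at h3
  rw [h3]
  exact hcC

end Pool.Agent.MP_2b113a_an.H48
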